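import Mathlib

/-!
# Project SX (helper667), parts SEL2 and SELI: abstract counting
-/

set_option autoImplicit false

namespace Pool.Agent.Y833.SX

section abs

lemma card_rk {A B : Type} [AddCommGroup A] [AddCommGroup B] (f : A →+ B) :
    Nat.card A = Nat.card f.range * Nat.card f.ker := by
  rw [AddSubgroup.card_eq_card_quotient_mul_card_addSubgroup f.ker]
  congr 1
  exact Nat.card_congr (QuotientAddGroup.quotientKerEquivRange f).toEquiv

variable {A G : Type} [AddCommGroup A] (a : G → A →+ A)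

lemma tadd {x y : A} (hx : ∃ m : ℕ, (2 ^ m : ℕ) • x = 0)
    (hy : ∃ m : ℕ, (2 ^ m : ℕ) • y = 0) : ∃ m : ℕ, (2 ^ m : ℕ) • (x + y) = 0 := by
  obtain ⟨m, hm⟩ := hx
  obtain ⟨l, hl⟩ := hy
  refine ⟨m + l, ?_⟩
  rw [smul_add, pow_add, mul_comm, mul_smul, hm, smul_zero, mul_comm, mul_smul, hl, smul_zero,
    add_zero]

lemma tneg {x : A} (hx : ∃ m : ℕ, (2 ^ m : ℕ) • x = 0) :
    ∃ m : ℕ, (2 ^ m : ℕ) • (-x) = 0 := by
  obtain ⟨m, hm⟩ := hx
  exact ⟨m, by rw [smul_neg, hm, neg_zero]⟩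

lemma thalf {x : A} (hx : ∃ m : ℕ, (2 ^ m : ℕ) • (x + x) = 0) :
    ∃ m : ℕ, (2 ^ m : ℕ) • x = 0 := by
  obtain ⟨m, hm⟩ := hx
  exact ⟨m + 1, by rw [pow_succ, mul_smul, two_nsmul, hm]⟩

/-- the fixed elements of 2-power order -/
def TT : AddSubgroup A where
  carrier := {P | (∀ σ, a σ P = P) ∧ ∃ m : ℕ, (2 ^ m : ℕ) • P = 0}
  zero_mem' := ⟨fun σ => map_zero _, 0, smul_zero _⟩
  add_mem' := fun ⟨h1, h2⟩ ⟨h3, h4⟩ => ⟨fun σ => by rw [map_add, h1, h3], tadd h2 h4⟩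
  neg_mem' := fun ⟨h1, h2⟩ => ⟨fun σ => by rw [map_neg, h1], tneg h2⟩

/-- the elements of 2-power order with fixed double -/
def DD : AddSubgroup A where
  carrier := {Q | (∀ σ, a σ (Q + Q) = Q + Q) ∧ ∃ m : ℕ, (2 ^ m : ℕ) • Q = 0}
  zero_mem' := ⟨fun σ => by rw [add_zero, map_zero], 0, smul_zero _⟩
  add_mem' := fun {x y} ⟨h1, h2⟩ ⟨h3, h4⟩ => ⟨fun σ => by
    have e : x + y + (x + y) = (x + x) + (y + y) := by abel
    rw [e, map_add, h1, h3], tadd h2 h4⟩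
  neg_mem' := fun {x} ⟨h1, h2⟩ => ⟨fun σ => by
    have e : -x + -x = -(x + x) := by abel
    rw [e, map_neg, h1], tneg h2⟩

/-- the coboundaries -/
def del : DD a →+ (G → A) :=
  AddMonoidHom.mk' (fun Q σ => a σ Q.1 - Q.1) (fun P Q => by
    funext σ
    change a σ (P.1 + Q.1) - (P.1 + Q.1) = (a σ P.1 - P.1) + (a σ Q.1 - Q.1)
    rw [map_add]
    abel)

/-- duplication -/
def dbl : DD a →+ TT a :=
  AddMonoidHom.mk' (fun Q => ⟨Q.1 + Q.1, Q.2.1, tadd Q.2.2 Q.2.2⟩) (fun P Q => by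
    apply Subtype.ext
    change P.1 + Q.1 + (P.1 + Q.1) = (P.1 + P.1) + (Q.1 + Q.1)
    abel)

theorem abs_card (hdiv : ∀ P : A, ∃ Q, P = Q + Q) (n : ℕ)
    (h4 : Nat.card {T : A // T + T = 0} = n) [Finite (TT a)] :
    Nat.card {f : G → A // (∀ σ, f σ + f σ = 0) ∧ ∃ Q : A, (∃ m : ℕ, (2 ^ m : ℕ) • Q = 0) ∧
      ∀ σ, f σ = a σ Q - Q} = n := by
  have e1 : Nat.card (dbl a).range = Nat.card (TT a) := by
    have h : Function.Surjective (dbl a) := by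
      intro P
      obtain ⟨Q, hQ⟩ := hdiv P.1
      refine ⟨⟨Q, ?_, ?_⟩, Subtype.ext hQ.symm⟩
      · rw [← hQ]
        exact P.2.1
      · exact thalf (hQ ▸ P.2.2)
    rw [AddMonoidHom.range_eq_top.2 h]
    exact Nat.card_congr AddSubgroup.topEquiv.toEquiv
  have e2 : Nat.card (dbl a).ker = n := by
    rw [← h4]
    refine Nat.card_congr ⟨fun Q => ⟨Q.1.1, congrArg Subtype.val Q.2⟩, fun T =>
      ⟨⟨T.1, fun σ => by rw [T.2, map_zero], 1, by rw [pow_one, two_nsmul, T.2]⟩,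
        Subtype.ext T.2⟩, fun Q => rfl, fun T => rfl⟩
  have e3 : Nat.card (del a).ker = Nat.card (TT a) := by
    refine Nat.card_congr ⟨fun Q => ⟨Q.1.1, fun σ => ?_, Q.1.2.2⟩, fun T =>
      ⟨⟨T.1, fun σ => by rw [map_add, T.2.1], T.2.2⟩, ?_⟩, fun Q => rfl, fun T => rfl⟩
    · have := congrFun (AddMonoidHom.mem_ker.1 Q.2) σ
      exact sub_eq_zero.1 this
    · rw [AddMonoidHom.mem_ker]
      funext σ
      exact sub_eq_zero.2 (T.2.1 σ)
  have e4 : Nat.card (del a).range = Nat.card {f : G → A // (∀ σ, f σ + f σ = 0) ∧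
      ∃ Q : A, (∃ m : ℕ, (2 ^ m : ℕ) • Q = 0) ∧ ∀ σ, f σ = a σ Q - Q} := by
    refine Nat.card_congr (Equiv.subtypeEquivRight fun f => ?_)
    constructor
    · rintro ⟨Q, rfl⟩
      refine ⟨fun σ => ?_, Q.1, Q.2.2, fun σ => rfl⟩
      change a σ Q.1 - Q.1 + (a σ Q.1 - Q.1) = 0
      have e : a σ Q.1 - Q.1 + (a σ Q.1 - Q.1) = a σ (Q.1 + Q.1) - (Q.1 + Q.1) := by
        rw [map_add]
        abel
      rw [e, Q.2.1, sub_self]
    · rintro ⟨h1, Q, hQ, h2⟩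
      refine ⟨⟨Q, fun σ => ?_, hQ⟩, ?_⟩
      · have h3 := h1 σ
        rw [h2] at h3
        have e : a σ Q - Q + (a σ Q - Q) = a σ (Q + Q) - (Q + Q) := by
          rw [map_add]
          abel
        rw [e] at h3
        exact sub_eq_zero.1 h3
      · funext σ
        exact (h2 σ).symm
  have h5 := card_rk (dbl a)
  have h6 := card_rk (del a)
  rw [h5, e1, e2, e3, e4, mul_comm] at h6
  exact (Nat.eq_of_mul_eq_mul_right Nat.card_pos h6).symm

end abs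

end Pool.Agent.Y833.SX
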