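import Pool.Agent.Y667.SX.Stm
import Pool.Agent.Y833.SX.Abs

/-!
# Project SX (helper667), parts SEL2 and SELI
-/

set_option autoImplicit false

namespace Pool.Agent.Y833.SX

open WeierstrassCurve Pool.Agent.TH841.SH.D Pool.Agent.Y667.SX
open Pool.Agent.Y667.BK (SelInf selInfCoc cobInf IsSelInf IsTor2 IsCobInf fg_pts)
open Pool.Agent.TH841.SH (selHom IsR tors_fix cob_sel exists_rat isR_Sh lc_cob coc_cob locTriv_cob)
open Pool.Agent.W307.SE (SelR)
open Pool.Agent.W307.RT (Sh)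
open Pool.Agent.W402.FK (dist)

lemma tors_fin {M : Type} [AddCommGroup M] (hfg : AddGroup.FG M) :
    Finite {x : M // ∃ m : ℕ, (2 ^ m : ℕ) • x = 0} := by
  have hM : Module.Finite ℤ M := Module.Finite.iff_addGroup_fg.2 hfg
  have hT : Finite (Submodule.torsion ℤ M) :=
    Module.finite_of_fg_torsion _ Submodule.torsion_isTorsion
  refine Finite.of_injective (β := Submodule.torsion ℤ M) (fun x => ⟨x.1, ?_⟩) (fun x y h => ?_)
  · obtain ⟨m, hm⟩ := x.2
    rw [Submodule.mem_torsion_iff]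
    refine ⟨⟨((2 ^ m : ℕ) : ℤ), mem_nonZeroDivisors_of_ne_zero (by positivity)⟩, ?_⟩
    change ((2 ^ m : ℕ) : ℤ) • x.1 = 0
    rw [natCast_zsmul, hm]
  · exact Subtype.ext (Subtype.mk.inj h)

lemma card_tors {K : Type} [Field K] [DecidableEq K] {W : WeierstrassCurve K} {a b c : K}
    (h : IsR W a b c) (h2 : (2 : K) ≠ 0) (hab : a ≠ b) (hac : a ≠ c) (hbc : b ≠ c) :
    Nat.card {T : W.toAffine.Point // T + T = 0} = 4 := by
  have na : W.toAffine.Nonsingular a 0 := h.nons h2 hab hac hbc (by ring)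
  have nb : W.toAffine.Nonsingular b 0 := h.nons h2 hab hac hbc (by ring)
  have nc : W.toAffine.Nonsingular c 0 := h.nons h2 hab hac hbc (by ring)
  have key : ∀ T : W.toAffine.Point, T + T = 0 ↔
      T ∈ ({0, .some a 0 na, .some b 0 nb, .some c 0 nc} : Finset W.toAffine.Point) := by
    intro T
    rw [Finset.mem_insert, Finset.mem_insert, Finset.mem_insert, Finset.mem_singleton]
    constructor
    · intro hT
      rcases h.tors h2 hT with rfl | ⟨ha, rfl⟩ | ⟨hb, rfl⟩ | ⟨hc, rfl⟩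
      · exact Or.inl rfl
      · exact Or.inr (Or.inl rfl)
      · exact Or.inr (Or.inr (Or.inl rfl))
      · exact Or.inr (Or.inr (Or.inr rfl))
    · rintro (rfl | rfl | rfl | rfl)
      · exact add_zero 0
      · exact (h.add_self h2 na).2 rfl
      · exact (h.add_self h2 nb).2 rfl
      · exact (h.add_self h2 nc).2 rfl
  rw [Nat.card_congr (Equiv.subtypeEquivRight key), Nat.card_eq_fintype_card, Fintype.card_coe,
    Finset.card_insert_of_notMem, Finset.card_insert_of_notMem, Finset.card_insert_of_notMem,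
    Finset.card_singleton]
  · rw [Finset.mem_singleton, Affine.Point.some.injEq]
    exact fun h => hbc h.1
  · rw [Finset.mem_insert, Finset.mem_singleton, Affine.Point.some.injEq,
      Affine.Point.some.injEq]
    rintro (h | h)
    · exact hab h.1
    · exact hac h.1
  · rw [Finset.mem_insert, Finset.mem_insert, Finset.mem_singleton]
    rintro (h | h | h)
    · exact Affine.Point.some_ne_zero _ h.symm
    · exact Affine.Point.some_ne_zero _ h.symm
    · exact Affine.Point.some_ne_zero _ h.symm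

section

variable {k : Type} [Field k]

/-- the points over the algebraic closure -/
abbrev PC (W : WeierstrassCurve k) : Type := Pt W (AlgebraicClosure k)

/-- the action of the Galois group -/
noncomputable def ga (W : WeierstrassCurve k) (σ : Gal k) : PC W →+ PC W := act W σ.toAlgHom

/-- the coboundary of a point -/
noncomputable def cb (W : WeierstrassCurve k) (Q : PC W) : Coch W :=
  fun σ => ga W σ Q - Q

end

section

variable {W : WeierstrassCurve ℚ} {a b c : ℚ}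

lemma sha_cob (W : WeierstrassCurve ℚ) (Q : PC W) :
    IsShaCoc W (cb W Q) :=
  ⟨⟨lc_cob W Q, coc_cob W Q⟩, fun _ _ => (loc_iff W _ _).2 (locTriv_cob W _ Q),
    (loc_iff W _ _).2 (locTriv_cob W _ Q)⟩

lemma fix2 (h : IsR W a b c) {T : PC W} (hT : T + T = 0) (σ : Gal ℚ) :
    ga W σ T = T := tors_fix h (T := T) hT σ

lemma div2 (h : IsR W a b c) (hab : a ≠ b) (hac : a ≠ c) (hbc : b ≠ c)
    (P : PC W) : ∃ Q : PC W, P = Q + Q := by
  classical
  have hinj : Function.Injective (algebraMap ℚ (AlgebraicClosure ℚ)) :=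
    (algebraMap ℚ (AlgebraicClosure ℚ)).injective
  exact (h.base (AlgebraicClosure ℚ)).div two_ne_zero (hinj.ne hab) (hinj.ne hac) (hinj.ne hbc) P

lemma mem2 (h : IsR W a b c) (f : Coch W) : f ∈ sel2Coc W ↔ f ∈ selHom W := by
  constructor
  · rintro ⟨⟨⟨h1, h2⟩, h3, h4⟩, h5⟩
    refine ⟨h1, h5, fun σ τ => ?_, fun p _ => (loc_iff W _ f).1 (h3 p), (loc_iff W _ f).1 h4⟩
    exact (h2 σ τ).trans (congrArg (fun z => f σ + z) (fix2 h (h5 τ) σ))
  · rintro ⟨h1, h2, h3, h4, h5⟩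
    refine ⟨⟨⟨h1, fun σ τ => ?_⟩, fun p _ => (loc_iff W _ f).2 (h4 p), (loc_iff W _ f).2 h5⟩, h2⟩
    exact (h3 σ τ).trans (congrArg (fun z => f σ + z) (fix2 h (h2 τ) σ).symm)

/-- the Selmer cocycles and the Selmer homomorphisms -/
noncomputable def eq2 (h : IsR W a b c) : sel2Coc W ≃ selHom W :=
  ⟨fun f => ⟨f.1, (mem2 h f.1).1 f.2⟩, fun f => ⟨f.1, (mem2 h f.1).2 f.2⟩, fun _ => rfl,
    fun _ => rfl⟩

lemma cob2_triv (h : IsR W a b c) {f : Coch W} (hf : f ∈ cob2 W) : f = 0 := by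
  obtain ⟨P, hP1, hP2⟩ := hf
  funext σ
  change f σ = 0
  rw [hP2, sub_eq_zero]
  exact fix2 h hP1 σ

lemma sel2H_card (h : IsR W a b c) : Nonempty (Sel2H W ≃ selHom W) := by
  have hq : Function.Bijective (fun f : sel2Coc W => (QuotientAddGroup.mk f : Sel2H W)) := by
    refine ⟨fun x y hxy => ?_, QuotientAddGroup.mk_surjective⟩
    have h1 : -x + y ∈ (cob2 W).addSubgroupOf (sel2Coc W) := QuotientAddGroup.eq.1 hxy
    rw [AddSubgroup.mem_addSubgroupOf] at h1
    have h2 := cob2_triv h h1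
    have h3 : -x + y = 0 := Subtype.ext h2
    exact (neg_add_eq_zero.1 h3)
  exact ⟨(Equiv.ofBijective _ hq).symm.trans (eq2 h)⟩

lemma sel2_le (W : WeierstrassCurve ℚ) : sel2Coc W ≤ selInfCoc W :=
  fun f hf => ⟨hf.1, fun σ => ⟨1, by rw [pow_one, two_nsmul]; exact hf.2 σ⟩⟩

/-- from the Selmer cocycles to the `2 ^ ∞`-Selmer group -/
noncomputable def psi (W : WeierstrassCurve ℚ) : sel2Coc W →+ SelInf W :=
  (QuotientAddGroup.mk' ((cobInf W).addSubgroupOf (selInfCoc W))).comp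
    (AddSubgroup.inclusion (sel2_le W))

lemma psi_ker (f : sel2Coc W) : f ∈ (psi W).ker ↔ ∃ Q : PC W,
    (∃ m : ℕ, (2 ^ m : ℕ) • Q = 0) ∧ ∀ σ : Gal ℚ, (f : Coch W) σ = ga W σ Q - Q := by
  rw [AddMonoidHom.mem_ker]
  change (QuotientAddGroup.mk' ((cobInf W).addSubgroupOf (selInfCoc W)))
    (AddSubgroup.inclusion (sel2_le W) f) = 0 ↔ _
  rw [QuotientAddGroup.mk'_apply, QuotientAddGroup.eq_zero_iff, AddSubgroup.mem_addSubgroupOf]
  rfl

lemma cob_mem2 (h : IsR W a b c) (Q : PC W)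
    (hQ : ∀ σ : Gal ℚ, ga W σ Q - Q + (ga W σ Q - Q) = 0) :
    cb W Q ∈ sel2Coc W :=
  (mem2 h _).2 (cob_sel h Q hQ)

lemma psi_range (h : IsR W a b c) (hab : a ≠ b) (hac : a ≠ c) (hbc : b ≠ c) (x : SelInf W) :
    x ∈ (psi W).range ↔ x + x = 0 := by
  constructor
  · rintro ⟨f, rfl⟩
    rw [← map_add]
    have : f + f = 0 := by
      apply Subtype.ext
      funext σ
      exact f.2.2 σ
    rw [this, map_zero]
  · intro hx
    obtain ⟨f, rfl⟩ := QuotientAddGroup.mk_surjective x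
    have hx1 : f + f ∈ (cobInf W).addSubgroupOf (selInfCoc W) :=
      (QuotientAddGroup.eq_zero_iff (N := (cobInf W).addSubgroupOf (selInfCoc W)) (f + f)).1 hx
    rw [AddSubgroup.mem_addSubgroupOf] at hx1
    obtain ⟨P, hPm, hP⟩ := hx1
    obtain ⟨Q, rfl⟩ := div2 h hab hac hbc P
    have hQm : ∃ m : ℕ, (2 ^ m : ℕ) • Q = 0 := thalf hPm
    obtain ⟨hf1, hf2⟩ : IsSelInf W f.1 := f.2
    have hP' : ∀ σ : Gal ℚ, (f : Coch W) σ + (f : Coch W) σ =
      ga W σ (Q + Q) - (Q + Q) := hP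
    let g : Coch W := f.1 - cb W Q
    have hgm : g ∈ sel2Coc W := by
      refine ⟨?_, fun σ => ?_⟩
      · have e0 : g = f.1 + -cb W Q := sub_eq_add_neg _ _
        rw [e0]
        exact sha_add hf1 (sha_neg (sha_cob W Q))
      · have e1 : ∀ u v w : PC W, u + u = (v + v) - (w + w) →
            (u - (v - w)) + (u - (v - w)) = 0 := by
          intro u v w huv
          have e2 : (u - (v - w)) + (u - (v - w)) = (u + u) - ((v + v) - (w + w)) := by abel
          rw [e2, huv, sub_self]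
        refine e1 _ _ _ ?_
        rw [← map_add]
        exact hP' σ
    refine ⟨⟨g, hgm⟩, ?_⟩
    change (QuotientAddGroup.mk' ((cobInf W).addSubgroupOf (selInfCoc W)))
      (AddSubgroup.inclusion (sel2_le W) ⟨g, hgm⟩) = QuotientAddGroup.mk f
    rw [QuotientAddGroup.mk'_apply, QuotientAddGroup.eq, AddSubgroup.mem_addSubgroupOf]
    have e3 : ∀ u v : PC W, -(u - v) + u = v := by
      intro u v
      abel
    exact ⟨Q, hQm, fun σ => e3 _ _⟩

/-- the points of order two -/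
lemma card4 (h : IsR W a b c) (hab : a ≠ b) (hac : a ≠ c) (hbc : b ≠ c) :
    Nat.card {T : PC W // T + T = 0} = 4 := by
  have hinj : Function.Injective (algebraMap ℚ (AlgebraicClosure ℚ)) :=
    (algebraMap ℚ (AlgebraicClosure ℚ)).injective
  exact @card_tors _ _ (Classical.decEq _) _ _ _ _ (h.base (AlgebraicClosure ℚ)) two_ne_zero
    (hinj.ne hab) (hinj.ne hac) (hinj.ne hbc)

lemma tt_fin (W : WeierstrassCurve ℚ) (hfg : AddGroup.FG W.toAffine.Point) :
    Finite (TT fun σ : Gal ℚ => ga W σ) := by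
  classical
  obtain ⟨j, hinj, -, hj⟩ := exists_rat W
  have hT := tors_fin hfg
  have key : ∀ P : TT fun σ : Gal ℚ => ga W σ, ∃ q : W.toAffine.Point,
      j q = P.1 ∧ ∃ m : ℕ, (2 ^ m : ℕ) • q = 0 := by
    intro P
    obtain ⟨q, hq⟩ := hj P.1 P.2.1
    obtain ⟨m, hm⟩ := P.2.2
    refine ⟨q, hq, m, hinj ?_⟩
    rw [map_nsmul, hq, map_zero]
    exact hm
  choose q hq1 hq2 using key
  refine Finite.of_injective (β := {x : W.toAffine.Point // ∃ m : ℕ, (2 ^ m : ℕ) • x = 0})
    (fun P => ⟨q P, hq2 P⟩) (fun P Q hPQ => ?_)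
  have h1 : q P = q Q := Subtype.mk.inj hPQ
  apply Subtype.ext
  rw [← hq1 P, ← hq1 Q, h1]

/-- **The elements of order two of the `2 ^ ∞`-Selmer group.** -/
theorem seli_card (h : IsR W a b c) (hab : a ≠ b) (hac : a ≠ c) (hbc : b ≠ c)
    (hfg : AddGroup.FG W.toAffine.Point) [Finite (selHom W)] :
    Finite {x : SelInf W // x + x = 0} ∧
    4 * Nat.card {x : SelInf W // x + x = 0} = Nat.card (selHom W) := by
  have hfin : Finite (sel2Coc W) := Finite.of_equiv _ (eq2 h).symm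
  have hfr : Finite (psi W).range := Finite.of_surjective _ (psi W).rangeRestrict_surjective
  have e1 : Nat.card {x : SelInf W // x + x = 0} = Nat.card (psi W).range :=
    Nat.card_congr (Equiv.subtypeEquivRight (fun x => (psi_range h hab hac hbc x).symm))
  refine ⟨Finite.of_equiv _ (Equiv.subtypeEquivRight (fun x => psi_range h hab hac hbc x)), ?_⟩
  have hTT := tt_fin W hfg
  have e2 := abs_card (fun σ : Gal ℚ => ga W σ) (div2 h hab hac hbc) 4
    (card4 h hab hac hbc)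
  have e3 : Nat.card (psi W).ker = 4 := by
    rw [← e2]
    refine Nat.card_congr ⟨fun f => ⟨f.1.1, f.1.2.2, (psi_ker f.1).1 f.2⟩, fun f =>
      ⟨⟨f.1, ?_⟩, (psi_ker _).2 ?_⟩, fun f => rfl, fun f => rfl⟩
    · obtain ⟨f, h1, Q, hQ, h2⟩ := f
      have h3 : f = cb W Q := funext h2
      have h4 : cb W Q ∈ sel2Coc W := cob_mem2 h Q fun σ => by
        rw [← h2 σ]
        exact h1 σ
      exact h3 ▸ h4
    · exact f.2.2
  rw [e1, ← e3, ← Nat.card_congr (eq2 h), card_rk (psi W), mul_comm]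

end

/-- **SEL2.** -/
theorem SEL2 : St_SEL2 := fun _ _ _ _ _ _ he => sel2H_card (isR_Sh he)

/-- **SELI.** -/
theorem SELI : St_SELI := by
  intro A B e1 e2 e3 hD he hfin
  obtain ⟨d12, d13, d23⟩ := dist A B e1 e2 e3 hD he
  have q12 : (e1 : ℚ) ≠ e2 := by exact_mod_cast d12
  have q13 : (e1 : ℚ) ≠ e3 := by exact_mod_cast d13
  have q23 : (e2 : ℚ) ≠ e3 := by exact_mod_cast d23
  exact seli_card (isR_Sh he) q12 q13 q23 (fg_pts (isR_Sh he) d12 d13 d23)

end Pool.Agent.Y833.SX
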